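import Pool.Agent.H835R2.Knot.Defs

/-!
# Odd pretzel knots

The oriented sliced diagrams, their isotopy and Vassiliev invariants are those of
`Pool.Agent.H835R2.Knot.Defs`.
-/

set_option autoImplicit false

namespace Pool.Agent.K7.H38.PZ

open Pool.Agent.H835R2.Knot

/-- `|p|` crossings of the strands `i` and `i + 1`, one below the other; for two strands with opposite
directions all crossings are positive if `p > 0` and negative if `p < 0`. -/
def column (i : ℕ) (p : ℤ) : Word :=
  List.replicate p.natAbs (if 0 ≤ p then Piece.neg i else Piece.pos i)

/-- The next column of a pretzel diagram. Above it there are four strands: the strand `1` is the
lower right end of the previous column, the strand `2` is the upper left end of this column, and the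
strands `0` and `3` lead to the left and to the right of all columns. The maximum joins the upper
right end of this column with the upper left end of the next column, and the minimum joins the lower
right end of the previous column with the lower left end of this column. -/
def block (p : ℤ) : Word := Piece.birth 3 false :: (column 2 p ++ [Piece.death 1])

/-- The pretzel diagram `P(p₁, …, p_n)`: columns of `|p₁|, …, |p_n|` crossings, side by side; the
upper right end of each column is joined by an arc with the upper left end of the next column, the
lower right end with the lower left end of the next column, and the ends of the last column in the
same way with those of the first column. (The columns are drawn at different heights, each column is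
lower than the previous one.) For odd `n` and odd `p_i` it is a knot diagram. -/
def pretzel (l : List ℤ) : Word :=
  [Piece.birth 0 false, Piece.birth 2 true] ++ l.flatMap block ++ [Piece.death 2, Piece.death 0]

/-- Some integer valued Vassiliev invariant of order at most `n` has different values on the two
knots. -/
def Separated (n : ℕ) (D E : Word) : Prop :=
  ∃ v : Word → ℤ, IsInvariant v ∧ DegreeLE n v ∧ v D ≠ v E

/-- The vectors `(p₁, …, p_n)` of odd numbers with `n` odd which are reduced: `1` and `-1` do not both
occur among the `p_i`, and less than `(n - 1) / 2` of the `p_i` are `1` or `-1`. (For `n = 3` this
means that all `|p_i| ≥ 3`.) -/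
def Adm (l : List ℤ) : Prop :=
  Odd l.length ∧ (∀ p ∈ l, Odd p) ∧ (1 ∉ l ∨ -1 ∉ l) ∧
    2 * (l.count 1 + l.count (-1)) + 1 < l.length

end Pool.Agent.K7.H38.PZ
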