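import Pool.Agent.K7.H38.PZ.Value

/-!
# Vassiliev invariants from the lowest coefficient of the HOMFLY polynomial
-/

set_option autoImplicit false

namespace Pool.Agent.K7.H38.PZ

open Pool.Agent.H835R2
open Pool.Agent.H835R2.Knot hiding val
open Pool.Agent.Helper454
open Pool.Agent.Helper454.Wh (Rlm lPow mPow)
open Pool.Agent.K7.H38.TB
open LaurentPolynomial

noncomputable section

/-- The sum of the values of `P` at the exponents, weighted with the coefficients. -/
def phi (P : Polynomial ℤ) : LaurentPolynomial ℤ →+ ℤ where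
  toFun x := x.coeff.sum fun n c => c * P.eval n
  map_zero' := by simp
  map_add' x y := by
    rw [AddMonoidAlgebra.coeff_add]
    exact Finsupp.sum_add_index' (fun _ => by ring) (fun _ _ _ => by ring)

theorem phi_apply (P : Polynomial ℤ) (x : LaurentPolynomial ℤ) :
    phi P x = x.coeff.sum fun n c => c * P.eval n := rfl

theorem phi_mono (P : Polynomial ℤ) (a n : ℤ) : phi P (C a * T n) = a * P.eval n := by
  rw [phi_apply, ← LaurentPolynomial.single_eq_C_mul_T, AddMonoidAlgebra.coeff_single,
    Finsupp.sum_single_index (by ring)]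

theorem phi_shift (P : Polynomial ℤ) (x : LaurentPolynomial ℤ) :
    phi P (x * (T 1 - 1)) = phi (Polynomial.taylor 1 P - P) x := by
  induction x using LaurentPolynomial.induction_on' with
  | add p q hp hq => rw [add_mul, map_add, map_add, hp, hq]
  | C_mul_T n a =>
    have e : (C a * T n * (T 1 - 1) : LaurentPolynomial ℤ) = C a * T (n + 1) - C a * T n := by
      rw [T_add]; ring
    rw [e, map_sub, phi_mono, phi_mono, phi_mono, Polynomial.eval_sub, Polynomial.taylor_eval]
    ring

theorem phi_kill (k : ℕ) : ∀ (P : Polynomial ℤ), P.degree < k → ∀ x : LaurentPolynomial ℤ,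
    phi P (x * (T 1 - 1) ^ k) = 0 := by
  induction k with
  | zero =>
    intro P hP x
    have : P = 0 := by
      have h : P.degree < 0 := by simpa using hP
      exact Polynomial.degree_eq_bot.1 (Nat.WithBot.lt_zero_iff.1 h)
    subst this
    rw [phi_apply]
    simp
  | succ k ih =>
    intro P hP x
    rw [pow_succ, ← mul_assoc, phi_shift]
    apply ih
    by_cases h0 : P = 0
    · subst h0
      simp only [map_zero, sub_self, Polynomial.degree_zero]
      exact WithBot.bot_lt_coe k
    · have h1 : (Polynomial.taylor 1 P - P).degree < P.degree := by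
        have := Polynomial.degree_sub_lt_left (Polynomial.degree_taylor P 1)
          (by rw [Ne, Polynomial.taylor_eq_zero]; exact h0) (Polynomial.leadingCoeff_taylor 1 P)
        rwa [Polynomial.degree_taylor] at this
      have h2 : P.degree ≤ k := by
        have := Polynomial.degree_eq_natDegree h0
        rw [this] at hP ⊢
        have h3 : P.natDegree < k + 1 := by exact_mod_cast hP
        exact_mod_cast Nat.lt_succ_iff.1 h3
      exact lt_of_lt_of_le h1 h2

/-- The same for the lowest coefficient. -/
def Phi (P : Polynomial ℤ) : Rlm →+ ℤ where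
  toFun x := phi P (x.coeff 0)
  map_zero' := by simp
  map_add' x y := by rw [AddMonoidAlgebra.coeff_add, Finsupp.add_apply, map_add]

theorem Phi_apply (P : Polynomial ℤ) (x : Rlm) : Phi P x = phi P (x.coeff 0) := rfl

theorem Phi_kill (P : Polynomial ℤ) (n : ℕ) (hP : P.natDegree ≤ n) (x : Rlm)
    (hx : x ∈ TB.S ((n + 1 : ℕ) : ℤ)) : Phi P x = 0 := by
  induction hx using Submodule.span_induction with
  | zero => exact map_zero _
  | add x x' _ _ h h' => rw [map_add, h, h', add_zero]
  | smul c x _ h => rw [map_zsmul, h, smul_zero]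
  | mem x hx =>
    obtain ⟨c, a, b, hab, rfl⟩ := hx
    rw [Phi_apply, ← LaurentPolynomial.single_eq_C_mul_T, AddMonoidAlgebra.coeff_single,
      Finsupp.single_apply]
    split_ifs with hb
    · subst hb
      have ha : n + 1 ≤ a := by push_cast at hab; omega
      obtain ⟨d, rfl⟩ := Nat.exists_eq_add_of_le ha
      rw [pow_add, mul_comm ((T 1 - 1 : LaurentPolynomial ℤ) ^ (n + 1)), ← mul_assoc]
      apply phi_kill
      refine lt_of_le_of_lt Polynomial.degree_le_natDegree ?_
      exact_mod_cast Nat.lt_succ_of_le hP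
    · exact map_zero _

theorem vassiliev_Phi (P : Polynomial ℤ) (n : ℕ) (hP : P.natDegree ≤ n) :
    IsInvariant (fun D => Phi P (val D)) ∧ DegreeLE n (fun D => Phi P (val D)) :=
  ⟨isInvariant_of _, degreeLE_of _ _ (Phi_kill P n hP)⟩

/-- Two knots whose lowest coefficients are different. -/
theorem separated_of_low {D E : Knot.Word} {x y : LaurentPolynomial ℤ} {n : ℕ}
    (hD : (val D).coeff 0 = x) (hE : (val E).coeff 0 = y) (hne : x ≠ y)
    (hn : (x - y).coeff.support.card ≤ n + 1) : Separated n D E := by
  set z := x - y with hz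
  have h0 : z ≠ 0 := sub_ne_zero.2 hne
  obtain ⟨k, hk⟩ : ∃ k, z.coeff k ≠ 0 := by
    by_contra hcon
    push Not at hcon
    exact h0 (LaurentPolynomial.ext fun a => by rw [hcon a]; rfl)
  set P : Polynomial ℤ := ∏ j ∈ z.coeff.support.erase k, (Polynomial.X - Polynomial.C j) with hP
  have hks : k ∈ z.coeff.support := Finsupp.mem_support_iff.2 hk
  have hd : P.natDegree ≤ n := by
    rw [hP, Polynomial.natDegree_prod_of_monic _ _ fun j _ => Polynomial.monic_X_sub_C j]
    simp only [Polynomial.natDegree_X_sub_C, Finset.sum_const, smul_eq_mul, mul_one]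
    rw [Finset.card_erase_of_mem hks]
    omega
  obtain ⟨h1, h2⟩ := vassiliev_Phi P n hd
  refine ⟨_, h1, h2, ?_⟩
  show Phi P (val D) ≠ Phi P (val E)
  rw [← sub_ne_zero, Phi_apply, Phi_apply, hD, hE, ← map_sub, ← hz, phi_apply, Finsupp.sum,
    Finset.sum_eq_single_of_mem k hks]
  · refine mul_ne_zero hk ?_
    rw [hP, Polynomial.eval_prod, Finset.prod_ne_zero_iff]
    intro j hj
    rw [Polynomial.eval_sub, Polynomial.eval_X, Polynomial.eval_C, sub_ne_zero]
    exact (Finset.ne_of_mem_erase hj).symm
  · intro j hj hjk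
    have : P.eval j = 0 := by
      rw [hP, Polynomial.eval_prod]
      exact Finset.prod_eq_zero (Finset.mem_erase.2 ⟨hjk, hj⟩) (by simp)
    rw [this, mul_zero]

end

end Pool.Agent.K7.H38.PZ
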