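import Pool.Agent.K7.H38.PZ.Funct

/-!
# The pretzel diagrams are knot diagrams
-/

set_option autoImplicit false

namespace Pool.Agent.K7.H38.PZ

open Pool.Agent.H835R2
open Pool.Agent.H835R2.Knot hiding val
open Pool.Agent.K7.H38.TB

/-- The four strands and how the strands directed upwards are connected. -/
def Pr (a b : ℕ) (F : Front) : Prop :=
  F.n = 4 ∧ (F.dir 0 = false ∧ F.dir 1 = true ∧ F.dir 2 = true ∧ F.dir 3 = false) ∧
    (F.fin 0 = a ∧ F.fin 1 = 1 ∧ F.fin 2 = 2 ∧ F.fin 3 = b)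

theorem run_block {p : ℤ} (hp : Odd p) (F : Front) :
    Knot.run (block p) F = Knot.run [.birth 3 false, .pos 2, .death 1] F := by
  obtain ⟨k, ⟨-, h⟩ | ⟨-, h⟩⟩ := odd_cases hp
  · unfold block
    rw [h]
    show Knot.run (List.replicate (2 * k + 1) (.neg 2) ++ [.death 1]) _ = _
    rw [run_append, eqv_rep _ (Or.inr rfl)]
    rfl
  · unfold block
    rw [h]
    show Knot.run (List.replicate (2 * k + 1) (.pos 2) ++ [.death 1]) _ = _
    rw [run_append, eqv_rep _ (Or.inl rfl)]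
    rfl

theorem comps_block {p : ℤ} (hp : Odd p) (F : Front) :
    Knot.comps (block p) F = Knot.comps [.birth 3 false, .pos 2, .death 1] F := by
  obtain ⟨k, ⟨-, h⟩ | ⟨-, h⟩⟩ := odd_cases hp
  · unfold block
    rw [h]
    show 0 + Knot.comps (List.replicate (2 * k + 1) (.neg 2) ++ [.death 1]) _ = _
    rw [comps_append, eqv_rep _ (Or.inr rfl), comps_replicate _ 2 (Or.inr rfl)]
    rfl
  · unfold block
    rw [h]
    show 0 + Knot.comps (List.replicate (2 * k + 1) (.pos 2) ++ [.death 1]) _ = _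
    rw [comps_append, eqv_rep _ (Or.inl rfl), comps_replicate _ 2 (Or.inl rfl)]
    rfl

theorem pr_block {p : ℤ} (hp : Odd p) {a b : ℕ} (hab : (a = 1 ∧ b = 2) ∨ (a = 2 ∧ b = 1))
    {F : Front} (h : Pr a b F) : Pr b a (Knot.run (block p) F) ∧ Knot.comps (block p) F = 0 := by
  rw [run_block hp, comps_block hp]
  obtain ⟨hn, ⟨h0, h1, h2, h3⟩, f0, f1, f2, f3⟩ := h
  rcases hab with ⟨rfl, rfl⟩ | ⟨rfl, rfl⟩
  · constructor
    · refine ⟨?_, ⟨?_, ?_, ?_, ?_⟩, ?_, ?_, ?_, ?_⟩ <;>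
        simp [Knot.run, Knot.Piece.act, Knot.up, Knot.dn, Knot.sw, Front.out, Front.inn, *]
    · simp [Knot.comps, Knot.Piece.closes, Knot.Piece.act, Knot.up, Knot.dn, Knot.sw, Front.out,
        Front.inn, *]
  · constructor
    · refine ⟨?_, ⟨?_, ?_, ?_, ?_⟩, ?_, ?_, ?_, ?_⟩ <;>
        simp [Knot.run, Knot.Piece.act, Knot.up, Knot.dn, Knot.sw, Front.out, Front.inn, *]
    · simp [Knot.comps, Knot.Piece.closes, Knot.Piece.act, Knot.up, Knot.dn, Knot.sw, Front.out,
        Front.inn, *]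

theorem pr_blocks {l : List ℤ} (hl : ∀ p ∈ l, Odd p) : ∀ {a b : ℕ},
    ((a = 1 ∧ b = 2) ∨ (a = 2 ∧ b = 1)) → ∀ {F : Front}, Pr a b F →
      Knot.comps (l.flatMap block) F = 0 ∧
      (Even l.length → Pr a b (Knot.run (l.flatMap block) F)) ∧
      (Odd l.length → Pr b a (Knot.run (l.flatMap block) F)) := by
  induction l with
  | nil =>
    intro a b hab F h
    exact ⟨rfl, fun _ => h, fun h => absurd h (by decide)⟩
  | cons p l ih =>
    intro a b hab F h
    obtain ⟨h1, h2⟩ := pr_block (hl p List.mem_cons_self) hab h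
    obtain ⟨i1, i2, i3⟩ := ih (fun q hq => hl q (List.mem_cons_of_mem _ hq))
      (a := b) (b := a) (by tauto) h1
    rw [List.flatMap_cons, comps_append, run_append, h2, i1, List.length_cons]
    refine ⟨rfl, fun h => i3 ?_, fun h => i2 ?_⟩
    · rcases Nat.even_or_odd l.length with h' | h'
      · exact absurd h (by rw [Nat.not_even_iff_odd]; exact h'.add_one)
      · exact h'
    · rcases Nat.even_or_odd l.length with h' | h'
      · exact h'
      · exact absurd h (by rw [Nat.not_odd_iff_even]; exact h'.add_one)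

theorem pretzel_eq (l : List ℤ) : pretzel l = top ++ (l.flatMap block ++ bot) := by
  unfold pretzel top bot
  simp

/-- For odd `n` and odd `p_i` the diagram `P(p₁, …, p_n)` is a knot diagram. -/
theorem isKnot_pretzel {l : List ℤ} (hl : ∀ p ∈ l, Odd p) (hn : Odd l.length) :
    IsKnot (pretzel l) := by
  rw [pretzel_eq]
  refine ⟨closed_blocks hl top_run (by decide), ?_⟩
  have h0 : Pr 1 2 (Knot.run top Front.empty) := by
    refine ⟨?_, ⟨?_, ?_, ?_, ?_⟩, ?_, ?_, ?_, ?_⟩ <;> decide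
  obtain ⟨h1, -, h3⟩ := pr_blocks hl (Or.inl ⟨rfl, rfl⟩) h0
  have h4 := h3 hn
  rw [comps_append, comps_append, h1]
  obtain ⟨hn, ⟨h0, h1, h2, h3⟩, f0, f1, f2, f3⟩ := h4
  have e1 : Knot.comps top Front.empty = 0 := by decide
  rw [e1]
  simp [bot, Knot.comps, Knot.Piece.closes, Knot.Piece.act, Knot.up, Knot.dn, Front.out,
    Front.inn, *]

end Pool.Agent.K7.H38.PZ
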