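import Pool.Agent.K7.H38.PZ.IsKnot

/-!
# The columns of a pretzel knot are determined by Vassiliev invariants
-/

set_option autoImplicit false

namespace Pool.Agent.K7.H38.PZ

open Pool.Agent.H835R2
open Pool.Agent.H835R2.Knot hiding val
open Pool.Agent.K7.H38.TB
open LaurentPolynomial

noncomputable section

theorem coeff_sum_T (l : List ℤ) (k : ℤ) :
    ((l.map fun p => (T (-p) : LaurentPolynomial ℤ)).sum).coeff k = (l.count (-k) : ℤ) := by
  induction l with
  | nil => rfl
  | cons p l ih =>
    rw [List.map_cons, List.sum_cons, AddMonoidAlgebra.coeff_add, Finsupp.add_apply, ih,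
      List.count_cons, LaurentPolynomial.T_apply]
    by_cases h : p = -k
    · rw [if_pos (by omega), if_pos (by simp [h])]; push_cast; ring
    · rw [if_neg (by omega), if_neg (by simp [h])]; push_cast; ring

theorem coeff_T_mul' (n : ℤ) (x : LaurentPolynomial ℤ) (j : ℤ) :
    (T n * x).coeff j = x.coeff (j - n) := by
  have := AddMonoidAlgebra.coeff_single_mul_apply x (1 : ℤ) n j
  rw [LaurentPolynomial.single_eq_C_mul_T, map_one, one_mul, one_mul] at this
  rw [this]
  congr 1
  ring

theorem coeff_low (l : List ℤ) (k : ℤ) : (low l).coeff k = (l.count (l.sum - k) : ℤ) -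
    (l.length / 2 : ℕ) * ((if k = l.sum + 1 then 1 else 0) + (if k = l.sum - 1 then 1 else 0)) := by
  unfold low
  rw [coeff_T_mul', AddMonoidAlgebra.coeff_sub, Finsupp.sub_apply, coeff_sum_T, neg_sub]
  congr 1
  have e : (((l.length / 2 : ℕ) : LaurentPolynomial ℤ) * (T 1 + T (-1))) =
      (l.length / 2 : ℕ) • (T 1 + T (-1)) := by rw [nsmul_eq_mul]
  rw [e, AddMonoidAlgebra.coeff_smul, Finsupp.smul_apply, AddMonoidAlgebra.coeff_add,
    Finsupp.add_apply, LaurentPolynomial.T_apply, LaurentPolynomial.T_apply, nsmul_eq_mul]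
  congr 2
  · congr 1; exact propext ⟨fun h => by omega, fun h => by omega⟩
  · congr 1; exact propext ⟨fun h => by omega, fun h => by omega⟩

theorem support_low (l : List ℤ) : (low l).coeff.support ⊆
    (l.map fun p => l.sum - p).toFinset ∪ {l.sum + 1, l.sum - 1} := by
  intro k hk
  rw [Finsupp.mem_support_iff, coeff_low] at hk
  rw [Finset.mem_union, List.mem_toFinset, List.mem_map, Finset.mem_insert, Finset.mem_singleton]
  by_cases h1 : k = l.sum + 1
  · exact Or.inr (Or.inl h1)
  by_cases h2 : k = l.sum - 1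
  · exact Or.inr (Or.inr h2)
  rw [if_neg h1, if_neg h2] at hk
  left
  refine ⟨l.sum - k, ?_, by ring⟩
  by_contra h
  apply hk
  rw [List.count_eq_zero_of_not_mem h]
  norm_num

theorem card_support_low (l : List ℤ) : (low l).coeff.support.card ≤ l.length + 2 := by
  refine (Finset.card_le_card (support_low l)).trans ((Finset.card_union_le _ _).trans ?_)
  refine Nat.add_le_add ?_ Finset.card_le_two
  exact (List.toFinset_card_le _).trans (by rw [List.length_map])

theorem perm_of_low {l l' : List ℤ} (hl : Adm l) (hl' : Adm l') (h : low l = low l') :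
    l.Perm l' := by
  obtain ⟨⟨N, hN⟩, ho, h1, h2⟩ := hl
  obtain ⟨⟨N', hN'⟩, ho', h1', h2'⟩ := hl'
  have hc : ∀ k, ((l.count (l.sum - k) : ℤ) - (l.length / 2 : ℕ) *
      ((if k = l.sum + 1 then 1 else 0) + (if k = l.sum - 1 then 1 else 0))) =
      (l'.count (l'.sum - k) : ℤ) - (l'.length / 2 : ℕ) *
      ((if k = l'.sum + 1 then 1 else 0) + (if k = l'.sum - 1 then 1 else 0)) := by
    intro k
    rw [← coeff_low, ← coeff_low, h]
  rw [hN, hN', show (2 * N + 1) / 2 = N by omega, show (2 * N' + 1) / 2 = N' by omega] at hc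
  rw [hN] at h2
  rw [hN'] at h2'
  have a1 := hc (l.sum + 1)
  have a2 := hc (l.sum - 1)
  rw [show l.sum - (l.sum + 1) = -1 by ring] at a1
  rw [show l.sum - (l.sum - 1) = 1 by ring] at a2
  rw [if_pos rfl, if_neg (by omega)] at a1
  rw [if_neg (by omega), if_pos rfl] at a2
  have b1 : l.sum + 1 = l'.sum + 1 ∨ l.sum + 1 = l'.sum - 1 := by
    by_contra hcon
    push Not at hcon
    rw [if_neg hcon.1, if_neg hcon.2] at a1
    push_cast at a1
    omega
  have b2 : l.sum - 1 = l'.sum + 1 ∨ l.sum - 1 = l'.sum - 1 := by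
    by_contra hcon
    push Not at hcon
    rw [if_neg hcon.1, if_neg hcon.2] at a2
    push_cast at a2
    omega
  have hS : l.sum = l'.sum := by omega
  rw [hS, show l'.sum - (l'.sum + 1) = -1 by ring, if_pos rfl, if_neg (by omega)] at a1
  rw [hS, show l'.sum - (l'.sum - 1) = 1 by ring, if_neg (by omega), if_pos rfl] at a2
  have hz : l.count 1 = 0 ∨ l.count (-1) = 0 := by
    rcases h1 with h | h
    · exact Or.inl (List.count_eq_zero_of_not_mem h)
    · exact Or.inr (List.count_eq_zero_of_not_mem h)
  have hz' : l'.count 1 = 0 ∨ l'.count (-1) = 0 := by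
    rcases h1' with h | h
    · exact Or.inl (List.count_eq_zero_of_not_mem h)
    · exact Or.inr (List.count_eq_zero_of_not_mem h)
  have hNN : N = N' := by
    push_cast at a1 a2
    omega
  rw [List.perm_iff_count]
  intro q
  have a3 := hc (l.sum - q)
  rw [show l.sum - (l.sum - q) = q by ring, hS, show l'.sum - (l'.sum - q) = q by ring, hNN] at a3
  have := sub_left_injective a3
  exact_mod_cast this

/-- The main theorem. -/
theorem separated {l l' : List ℤ} (hl : Adm l) (hl' : Adm l') (h : ¬ l.Perm l') :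
    Separated (l.length + l'.length + 3) (pretzel l) (pretzel l') := by
  have c : ∀ {l : List ℤ}, Adm l → (TB.val (pretzel l)).coeff 0 = low l := by
    intro l hl
    obtain ⟨-, -, h3⟩ := coeffs l hl.2.1
    rw [pretzel_eq]
    exact (h3 hl.1).2.1
  refine separated_of_low (c hl) (c hl') (fun e => h (perm_of_low hl hl' e)) ?_
  rw [AddMonoidAlgebra.coeff_sub]
  refine (Finset.card_le_card Finsupp.support_sub).trans ((Finset.card_union_le _ _).trans ?_)
  have h1 := card_support_low l
  have h2 := card_support_low l'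
  omega

end

end Pool.Agent.K7.H38.PZ
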