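import Pool.Agent.K7.H38.PZ.Word

/-!
# The HOMFLY polynomial of a diagram with a column
-/

set_option autoImplicit false

namespace Pool.Agent.K7.H38.PZ

open Pool.Agent.H835R2
open Pool.Agent.H835R2.Knot hiding val
open Pool.Agent.Helper454
open Pool.Agent.Helper454.Wh (Rlm lPow mPow)
open Pool.Agent.Y466.FT
open Pool.Agent.K7.H38.TB
open LaurentPolynomial

noncomputable section

theorem ll (a b : ℤ) : lPow a * lPow b = lPow (a + b) := (Wh.Homf.lPow_add a b).symm
theorem l0 : lPow 0 = 1 := Wh.Homf.lPow_zero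

theorem val_sim {l : List Bool} {a b x y : Knot.Word} (h : Sim l a b)
    (hx : Eqv (Knot.run x Front.empty) (fr l)) (hc : Closed (x ++ a ++ y)) :
    val (x ++ a ++ y) = val (x ++ b ++ y) := val_isotopic (h.iso x y hx hc)

/-- The piece above the crossings. -/
theorem run_top {x : Knot.Word} (hx : Eqv (Knot.run x Front.empty) (fr d4)) :
    Eqv (Knot.run (x ++ [.birth 3 false]) Front.empty) (fr d6) := by
  rw [run_append]
  exact ((hx.symm.word [.birth 3 false] (by decide)).2.symm).trans (by decide)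

theorem run_top1 {x : Knot.Word} (p : Knot.Piece) (hp : p = .pos 2 ∨ p = .neg 2)
    (hx : Eqv (Knot.run x Front.empty) (fr d4)) :
    Eqv (Knot.run (x ++ [.birth 3 false, p]) Front.empty)
      (fr [false, true, false, true, true, false]) := by
  rw [run_append]
  rcases hp with rfl | rfl
  · exact ((hx.symm.word [.birth 3 false, .pos 2] (by decide)).2.symm).trans (by decide)
  · exact ((hx.symm.word [.birth 3 false, .neg 2] (by decide)).2.symm).trans (by decide)

/-- The general part of the argument. -/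
theorem val_cut {x y : Knot.Word} (p : Knot.Piece) (hp : p = .pos 2 ∨ p = .neg 2) (k : ℕ)
    (hx : Eqv (Knot.run x Front.empty) (fr d4)) (h : Closed (x ++ y)) :
    val (x ++ [.birth 3 false] ++ [p, .death 2] ++ ([.birth 2 true] ++
      (List.replicate (2 * k + 1) p ++ [.death 1] ++ y))) = val (x ++ y) := by
  have c0 : Closed (x ++ ([.birth 3 false, .death 2, .birth 2 true] ++
      (List.replicate (2 * k + 1) p ++ [.death 1])) ++ y) := by
    have h' : Closed (x ++ [] ++ y) := by simpa using h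
    exact closed_sim (sim_cut_odd p hp k).fy (sim_cut_odd p hp k).fx (sim_cut_odd p hp k).e.symm hx h'
  have e0 : x ++ ([.birth 3 false, .death 2, .birth 2 true] ++
      (List.replicate (2 * k + 1) p ++ [.death 1])) ++ y = x ++ [.birth 3 false] ++ [.death 2] ++
      ([.birth 2 true] ++ (List.replicate (2 * k + 1) p ++ [.death 1] ++ y)) := by simp
  have s1 : Sim d6 [p, .death 2] [.death 2] := by
    rcases hp with rfl | rfl
    · exact Sim.move (Knot.Move.firstDeathPos 2) (by decide) (by decide) (by decide)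
    · exact Sim.move (Knot.Move.firstDeathNeg 2) (by decide) (by decide) (by decide)
  rw [e0] at c0
  have v1 := val_sim s1.symm (run_top hx) c0
  rw [← v1, ← e0]
  rw [e0.symm] at c0
  have v2 := val_sim (sim_cut_odd p hp k) hx c0
  rw [v2, List.append_nil]

theorem closed_col {x y : Knot.Word} (p : Knot.Piece) (hp : p = .pos 2 ∨ p = .neg 2) (k : ℕ)
    (hx : Eqv (Knot.run x Front.empty) (fr d4)) (h : Closed (x ++ y)) :
    Closed (x ++ (.birth 3 false :: (List.replicate (2 * k + 1) p ++ [.death 1])) ++ y) :=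
  closed_insert hx (block_ok p hp k).1 (block_ok p hp k).2 h

/-- Two more positive crossings. -/
theorem val_neg2 {x y : Knot.Word} (k : ℕ) (hx : Eqv (Knot.run x Front.empty) (fr d4))
    (h : Closed (x ++ y)) :
    val (x ++ (.birth 3 false :: (List.replicate (2 * (k + 1) + 1) (.neg 2) ++ [.death 1])) ++ y) =
      lPow 2 * val (x ++ (.birth 3 false :: (List.replicate (2 * k + 1) (.neg 2) ++ [.death 1])) ++ y) +
      lPow 1 * mPow 1 * val (x ++ y) := by
  have hp : (Knot.Piece.neg 2) = .pos 2 ∨ (Knot.Piece.neg 2) = .neg 2 := Or.inr rfl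
  have c1 := closed_col (.neg 2) hp (k + 1) hx h
  have c0 := closed_col (.neg 2) hp k hx h
  set z : Knot.Word := List.replicate (2 * k + 1) (.neg 2) ++ [.death 1] ++ y with hz
  have e1 : x ++ (.birth 3 false :: (List.replicate (2 * (k + 1) + 1) (.neg 2) ++ [.death 1])) ++ y =
      (x ++ [.birth 3 false, .neg 2]) ++ [.neg 2] ++ z := by
    rw [hz, show 2 * (k + 1) + 1 = 2 + (2 * k + 1) by ring, List.replicate_add]
    simp [List.replicate_succ]
  have e0 : x ++ (.birth 3 false :: (List.replicate (2 * k + 1) (.neg 2) ++ [.death 1])) ++ y =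
      (x ++ [.birth 3 false]) ++ [] ++ z := by
    rw [hz]; simp
  have hr := run_top1 (.neg 2) hp hx
  have d2 : (Knot.run (x ++ [.birth 3 false, .neg 2]) Front.empty).dir 2 = false :=
    hr.2 2 (by rw [hr.1]; decide)
  have d3 : (Knot.run (x ++ [.birth 3 false, .neg 2]) Front.empty).dir (2 + 1) = true :=
    hr.2 3 (by rw [hr.1]; decide)
  rw [e1] at c1
  have key := val_anti (x ++ [.birth 3 false, .neg 2]) 2 z c1 (by rw [d2, d3]; decide)
  rw [d3] at key
  have s2 : Sim d6 [.neg 2, .pos 2] [] :=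
    Sim.move (Knot.Move.second₂ 2) (by decide) (by decide) (by decide)
  have e3 : (x ++ [.birth 3 false, .neg 2]) ++ [.pos 2] ++ z =
      (x ++ [.birth 3 false]) ++ [.neg 2, .pos 2] ++ z := by simp
  rw [e0] at c0
  have v2 := val_sim s2.symm (run_top hx) c0
  have e4 : (x ++ [.birth 3 false, .neg 2]) ++ [.death 2, .birth 2 true] ++ z =
      x ++ [.birth 3 false] ++ [.neg 2, .death 2] ++ ([.birth 2 true] ++ z) := by simp
  rw [e3, ← v2, e4, val_cut (.neg 2) hp k hx h] at key
  rw [e1, e0]
  have h1 := ll 1 (-1)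
  have h2 := ll 1 1
  norm_num at h1 h2
  rw [l0] at h1
  linear_combination lPow 1 * key - val (x ++ [.birth 3 false, .neg 2] ++ [.neg 2] ++ z) * h1 +
    val (x ++ [.birth 3 false] ++ [] ++ z) * h2

/-- Two more negative crossings. -/
theorem val_pos2 {x y : Knot.Word} (k : ℕ) (hx : Eqv (Knot.run x Front.empty) (fr d4))
    (h : Closed (x ++ y)) :
    val (x ++ (.birth 3 false :: (List.replicate (2 * (k + 1) + 1) (.pos 2) ++ [.death 1])) ++ y) =
      lPow (-2) * val (x ++ (.birth 3 false :: (List.replicate (2 * k + 1) (.pos 2) ++ [.death 1])) ++ y)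
      - lPow (-1) * mPow 1 * val (x ++ y) := by
  have hp : (Knot.Piece.pos 2) = .pos 2 ∨ (Knot.Piece.pos 2) = .neg 2 := Or.inl rfl
  have c1 := closed_col (.pos 2) hp (k + 1) hx h
  have c0 := closed_col (.pos 2) hp k hx h
  set z : Knot.Word := List.replicate (2 * k + 1) (.pos 2) ++ [.death 1] ++ y with hz
  have e1 : x ++ (.birth 3 false :: (List.replicate (2 * (k + 1) + 1) (.pos 2) ++ [.death 1])) ++ y =
      (x ++ [.birth 3 false, .pos 2]) ++ [.pos 2] ++ z := by
    rw [hz, show 2 * (k + 1) + 1 = 2 + (2 * k + 1) by ring, List.replicate_add]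
    simp [List.replicate_succ]
  have e0 : x ++ (.birth 3 false :: (List.replicate (2 * k + 1) (.pos 2) ++ [.death 1])) ++ y =
      (x ++ [.birth 3 false]) ++ [] ++ z := by
    rw [hz]; simp
  have hr := run_top1 (.pos 2) hp hx
  have d2 : (Knot.run (x ++ [.birth 3 false, .pos 2]) Front.empty).dir 2 = false :=
    hr.2 2 (by rw [hr.1]; decide)
  have d3 : (Knot.run (x ++ [.birth 3 false, .pos 2]) Front.empty).dir (2 + 1) = true :=
    hr.2 3 (by rw [hr.1]; decide)
  rw [e1] at c1
  have c1' : Closed ((x ++ [.birth 3 false, .pos 2]) ++ [.neg 2] ++ z) :=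
    (Y466.FT.Same.switch (x ++ [.birth 3 false, .pos 2]) z (.pos 2)).closed.2 c1
  have key := val_anti (x ++ [.birth 3 false, .pos 2]) 2 z c1' (by rw [d2, d3]; decide)
  rw [d3] at key
  have s2 : Sim d6 [.pos 2, .neg 2] [] :=
    Sim.move (Knot.Move.second₁ 2) (by decide) (by decide) (by decide)
  have e3 : (x ++ [.birth 3 false, .pos 2]) ++ [.neg 2] ++ z =
      (x ++ [.birth 3 false]) ++ [.pos 2, .neg 2] ++ z := by simp
  rw [e0] at c0
  have v2 := val_sim s2.symm (run_top hx) c0
  have e4 : (x ++ [.birth 3 false, .pos 2]) ++ [.death 2, .birth 2 true] ++ z =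
      x ++ [.birth 3 false] ++ [.pos 2, .death 2] ++ ([.birth 2 true] ++ z) := by simp
  rw [e3, ← v2, e4, val_cut (.pos 2) hp k hx h] at key
  rw [e1, e0]
  have h1 := ll 1 (-1)
  have h2 := ll (-1) (-1)
  norm_num at h1 h2
  rw [l0] at h1
  linear_combination -lPow (-1) * key - val (x ++ [.birth 3 false, .pos 2] ++ [.pos 2] ++ z) * h1 +
    val (x ++ [.birth 3 false] ++ [] ++ z) * h2

/-- One positive and one negative crossing. -/
theorem val_one {x y : Knot.Word} (hx : Eqv (Knot.run x Front.empty) (fr d4))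
    (h : Closed (x ++ y)) :
    val (x ++ (.birth 3 false :: (List.replicate (2 * 0 + 1) (.pos 2) ++ [.death 1])) ++ y) =
      lPow (-2) * val (x ++ (.birth 3 false :: (List.replicate (2 * 0 + 1) (.neg 2) ++ [.death 1])) ++ y)
      - lPow (-1) * mPow 1 * val (x ++ y) := by
  have c0 := closed_col (.neg 2) (Or.inr rfl) 0 hx h
  have e0 : x ++ (.birth 3 false :: (List.replicate (2 * 0 + 1) (.neg 2) ++ [.death 1])) ++ y =
      (x ++ [.birth 3 false]) ++ [.neg 2] ++ ([.death 1] ++ y) := by simp
  have e1 : x ++ (.birth 3 false :: (List.replicate (2 * 0 + 1) (.pos 2) ++ [.death 1])) ++ y =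
      (x ++ [.birth 3 false]) ++ [.pos 2] ++ ([.death 1] ++ y) := by simp
  have hr := run_top hx
  have d2 : (Knot.run (x ++ [.birth 3 false]) Front.empty).dir 2 = true :=
    hr.2 2 (by rw [hr.1]; decide)
  have d3 : (Knot.run (x ++ [.birth 3 false]) Front.empty).dir (2 + 1) = false :=
    hr.2 3 (by rw [hr.1]; decide)
  rw [e0] at c0
  have key := val_anti (x ++ [.birth 3 false]) 2 ([.death 1] ++ y) c0 (by rw [d2, d3]; decide)
  rw [d3] at key
  have e4 : (x ++ [.birth 3 false]) ++ [.death 2, .birth 2 false] ++ ([.death 1] ++ y) =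
      x ++ [.birth 3 false, .death 2, .birth 2 false, .death 1] ++ y := by simp
  have h' : Closed (x ++ [] ++ y) := by simpa using h
  have c2 := closed_sim sim_cut.fy sim_cut.fx sim_cut.e.symm hx h'
  have v2 := val_sim sim_cut hx c2
  rw [e4, v2, List.append_nil] at key
  rw [e1, e0]
  have h1 := ll 1 (-1)
  have h2 := ll (-1) (-1)
  norm_num at h1 h2
  rw [l0] at h1
  linear_combination -lPow (-1) * key -
    val (x ++ [.birth 3 false] ++ [.pos 2] ++ ([.death 1] ++ y)) * h1 +
    val (x ++ [.birth 3 false] ++ [.neg 2] ++ ([.death 1] ++ y)) * h2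

end

end Pool.Agent.K7.H38.PZ
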