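import Pool.Agent.K7.H38.PZ.Skein

/-!
# The lowest coefficient of the HOMFLY polynomial of a pretzel knot
-/

set_option autoImplicit false

namespace Pool.Agent.K7.H38.PZ

open Pool.Agent.H835R2
open Pool.Agent.H835R2.Knot hiding val
open Pool.Agent.Helper454
open Pool.Agent.Helper454.Wh (Rlm lPow mPow)
open Pool.Agent.Y466.FT
open Pool.Agent.K7.H38.TB
open LaurentPolynomial

noncomputable section

theorem val_block {p : ℤ} (hp : Odd p) : ∃ r : LaurentPolynomial ℤ,
    r * (T (-1) - T 1) = 1 - T (p - 1) ∧ ∀ x y : Knot.Word, Eqv (Knot.run x Front.empty) (fr d4) →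
      Closed (x ++ y) → val (x ++ block p ++ y) =
        lPow (p - 1) * val (x ++ [.pos 1] ++ y) + C r * mPow 1 * val (x ++ y) := by
  have one : ∀ x y : Knot.Word, Eqv (Knot.run x Front.empty) (fr d4) → Closed (x ++ y) →
      val (x ++ (.birth 3 false :: (List.replicate (2 * 0 + 1) (.neg 2) ++ [.death 1])) ++ y) =
        val (x ++ [.pos 1] ++ y) := fun x y hx h =>
    val_sim sim_block_one hx (closed_col (.neg 2) (Or.inr rfl) 0 hx h)
  obtain ⟨k, ⟨rfl, h⟩ | ⟨rfl, h⟩⟩ := odd_cases hp
  · unfold block
    rw [h]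
    clear h hp
    induction k with
    | zero =>
      refine ⟨0, by norm_num, fun x y hx h => ?_⟩
      rw [one x y hx h]
      norm_num [l0]
    | succ k ih =>
      obtain ⟨r, hr, ih⟩ := ih
      refine ⟨T 2 * r + T 1, ?_, fun x y hx h => ?_⟩
      · have e1 : (T 2 * T (2 * (k : ℤ) + 1 - 1) : LaurentPolynomial ℤ) =
            T (2 * ((k + 1 : ℕ) : ℤ) + 1 - 1) := by
          rw [← T_add]; congr 1; push_cast; ring
        have e2 : (T 1 * T (-1) : LaurentPolynomial ℤ) = 1 := by rw [← T_add]; norm_num
        have e3 : (T 1 * T 1 : LaurentPolynomial ℤ) = T 2 := by rw [← T_add]; norm_num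
        linear_combination T 2 * hr + e2 - e3 - e1
      · rw [val_neg2 k hx h, ih x y hx h]
        have e1 : lPow (2 * ((k + 1 : ℕ) : ℤ) + 1 - 1) = lPow 2 * lPow (2 * (k : ℤ) + 1 - 1) := by
          rw [ll]; congr 1; push_cast; ring
        have e2 : (C (T 2 * r + T 1) : Rlm) = lPow 2 * C r + lPow 1 := by
          rw [map_add, map_mul]; rfl
        rw [e1, e2]
        ring
  · unfold block
    rw [h]
    clear h hp
    induction k with
    | zero =>
      refine ⟨-T (-1), ?_, fun x y hx h => ?_⟩
      · have e2 : (T (-1) * T 1 : LaurentPolynomial ℤ) = 1 := by rw [← T_add]; norm_num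
        have e3 : (T (-1) * T (-1) : LaurentPolynomial ℤ) = T (-(2 * ((0 : ℕ) : ℤ) + 1) - 1) := by
          rw [← T_add]; norm_num
        linear_combination e2 - e3
      · rw [val_one hx h, one x y hx h]
        have e1 : lPow (-(2 * ((0 : ℕ) : ℤ) + 1) - 1) = lPow (-2) := by norm_num
        have e2 : (C (-T (-1)) : Rlm) = -lPow (-1) := by
          rw [map_neg]; rfl
        rw [e1, e2]
        ring
    | succ k ih =>
      obtain ⟨r, hr, ih⟩ := ih
      refine ⟨T (-2) * r - T (-1), ?_, fun x y hx h => ?_⟩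
      · have e1 : (T (-2) * T (-(2 * (k : ℤ) + 1) - 1) : LaurentPolynomial ℤ) =
            T (-(2 * ((k + 1 : ℕ) : ℤ) + 1) - 1) := by
          rw [← T_add]; congr 1; push_cast; ring
        have e2 : (T (-1) * T 1 : LaurentPolynomial ℤ) = 1 := by rw [← T_add]; norm_num
        have e3 : (T (-1) * T (-1) : LaurentPolynomial ℤ) = T (-2) := by rw [← T_add]; norm_num
        linear_combination T (-2) * hr + e2 - e3 - e1
      · rw [val_pos2 k hx h, ih x y hx h]
        have e1 : lPow (-(2 * ((k + 1 : ℕ) : ℤ) + 1) - 1) =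
            lPow (-2) * lPow (-(2 * (k : ℤ) + 1) - 1) := by
          rw [ll]; congr 1; push_cast; ring
        have e2 : (C (T (-2) * r - T (-1)) : Rlm) = lPow (-2) * C r - lPow (-1) := by
          rw [map_sub, map_mul]; rfl
        rw [e1, e2]
        ring

/-- Two crossings of the strands `1`, `2`. -/
theorem val_pos_pos {x y : Knot.Word} (hx : Eqv (Knot.run x Front.empty) (fr d4))
    (h : Closed (x ++ y)) : val (x ++ [.pos 1] ++ [.pos 1] ++ y) =
      lPow 2 * val (x ++ y) + lPow 1 * mPow 1 * val (x ++ [.pos 1] ++ y) := by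
  have hx1 : Eqv (Knot.run (x ++ [.pos 1]) Front.empty) (fr d4) := by
    rw [run_append]
    exact ((hx.symm.word [.pos 1] (by decide)).2.symm).trans (by decide)
  have c1 : Closed (x ++ [.pos 1] ++ y) := closed_insert hx (by decide) (by decide) h
  have c2 : Closed (x ++ [.pos 1] ++ [.pos 1] ++ y) := closed_insert hx1 (by decide) (by decide) c1
  have d1 : (Knot.run (x ++ [.pos 1]) Front.empty).dir 1 = true := hx1.2 1 (by rw [hx1.1]; decide)
  have d2 : (Knot.run (x ++ [.pos 1]) Front.empty).dir (1 + 1) = true :=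
    hx1.2 2 (by rw [hx1.1]; decide)
  have key := val_parallel (x ++ [.pos 1]) 1 y c2 (by rw [d1, d2])
  have s1 : Sim d4 [.pos 1, .neg 1] [] :=
    Sim.move (Knot.Move.second₁ 1) (by decide) (by decide) (by decide)
  have h' : Closed (x ++ [] ++ y) := by simpa using h
  have v1 := val_sim s1.symm hx h'
  have e1 : x ++ [.pos 1] ++ [.neg 1] ++ y = x ++ [.pos 1, .neg 1] ++ y := by simp
  rw [e1, ← v1, List.append_nil] at key
  have h1 := ll 1 (-1)
  have h2 := ll 1 1
  norm_num at h1 h2
  rw [l0] at h1
  linear_combination lPow 1 * key - val (x ++ [.pos 1] ++ [.pos 1] ++ y) * h1 + val (x ++ y) * h2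

/-! ### the two series of values -/

/-- The upper end. -/
def top : Knot.Word := [.birth 0 false, .birth 2 true]
/-- The lower end. -/
def bot : Knot.Word := [.death 2, .death 0]

theorem top_run : Eqv (Knot.run top Front.empty) (fr d4) := by decide
theorem top_run1 : Eqv (Knot.run (top ++ [.pos 1]) Front.empty) (fr d4) := by decide

theorem blocks_ok {l : List ℤ} (hl : ∀ p ∈ l, Odd p) : Knot.Fits (l.flatMap block) (fr d4) ∧
    Eqv (Knot.run (l.flatMap block) (fr d4)) (fr d4) := by
  induction l with
  | nil => exact ⟨trivial, Eqv.refl _⟩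
  | cons p l ih =>
    obtain ⟨h1, h2⟩ := ih fun q hq => hl q (List.mem_cons_of_mem _ hq)
    obtain ⟨h3, h4⟩ := block_fits (hl p List.mem_cons_self)
    obtain ⟨h5, h6⟩ := h4.symm.word _ h1
    rw [List.flatMap_cons, fits_append, run_append]
    exact ⟨⟨h3, h5⟩, h6.symm.trans h2⟩

theorem closed_blocks {x : Knot.Word} {l : List ℤ} (hl : ∀ p ∈ l, Odd p)
    (hx : Eqv (Knot.run x Front.empty) (fr d4)) (h : Closed (x ++ bot)) :
    Closed (x ++ (l.flatMap block ++ bot)) := by
  have := closed_insert hx (blocks_ok hl).1 (blocks_ok hl).2 h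
  rwa [List.append_assoc] at this

/-- The value of the diagram. -/
def V0 (l : List ℤ) : Rlm := val (top ++ (l.flatMap block ++ bot))
/-- The value of the diagram with one more crossing. -/
def V1 (l : List ℤ) : Rlm := val (top ++ [.pos 1] ++ (l.flatMap block ++ bot))

theorem V_cons {p : ℤ} {l : List ℤ} (hp : Odd p) (hl : ∀ q ∈ l, Odd q) :
    ∃ r : LaurentPolynomial ℤ, r * (T (-1) - T 1) = 1 - T (p - 1) ∧
      V0 (p :: l) = lPow (p - 1) * V1 l + C r * mPow 1 * V0 l ∧
      V1 (p :: l) = lPow (p - 1) * (lPow 2 * V0 l + lPow 1 * mPow 1 * V1 l) +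
        C r * mPow 1 * V1 l := by
  obtain ⟨r, h1, h2⟩ := val_block hp
  have c0 : Closed (top ++ (l.flatMap block ++ bot)) := closed_blocks hl top_run (by decide)
  have c1 : Closed (top ++ [.pos 1] ++ (l.flatMap block ++ bot)) :=
    closed_blocks hl top_run1 (by decide)
  refine ⟨r, h1, ?_, ?_⟩
  · have := h2 top _ top_run c0
    unfold V0 V1
    rw [← this]
    simp [List.append_assoc]
  · have := h2 (top ++ [.pos 1]) _ top_run1 c1
    rw [val_pos_pos top_run c0] at this
    have e : top ++ [.pos 1] ++ ((p :: l).flatMap block ++ bot) =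
        top ++ [.pos 1] ++ block p ++ (l.flatMap block ++ bot) := by
      rw [List.flatMap_cons]; simp only [List.append_assoc]
    unfold V1 V0
    rw [e, this]

theorem V1_nil : V1 [] = 1 := by
  have h0 : Sim [] (top ++ [.pos 1] ++ ([] ++ bot)) Knot.circle := by
    have a1 : Sim [] ([.birth 0 false, .birth 2 true] ++ [.pos 1, .death 2] ++ [.death 0])
        ([.birth 0 false, .birth 2 true] ++ [.neg 2, .death 1] ++ [.death 0]) :=
      (Sim.move (l := d4) (Knot.Move.slideDeath₂ 1) (by decide) (by decide)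
        (by decide)).symm.ctx (by decide) (by decide) (by decide)
    have a2 : Sim [] ([.birth 0 false] ++ [.birth 2 true, .neg 2] ++ [.death 1, .death 0])
        ([.birth 0 false] ++ [.birth 2 (!true)] ++ [.death 1, .death 0]) :=
      (Sim.move (l := [false, true]) (Knot.Move.firstBirthNeg 2 true) (by decide) (by decide)
        (by decide)).ctx (by decide) (by decide) (by decide)
    have a3 : Sim [] ([.birth 0 false] ++ [.birth 2 false, .death 1] ++ [.death 0])
        ([.birth 0 false] ++ [] ++ [.death 0]) :=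
      (Sim.move (l := [false, true]) (Knot.Move.zigzag₂ 1 false) (by decide) (by decide)
        (by decide)).ctx (by decide) (by decide) (by decide)
    have a4 : Sim [] ([] ++ [.birth 0 (!true)] ++ [.death 0]) ([] ++ [.birth 0 true, .neg 0] ++ [.death 0]) :=
      (Sim.move (l := []) (Knot.Move.firstBirthNeg 0 true) (by decide) (by decide)
        (by decide)).symm.ctx (by decide) (by decide) (by decide)
    have a5 : Sim [] ([.birth 0 true] ++ [.neg 0, .death 0] ++ []) ([.birth 0 true] ++ [.death 0] ++ []) :=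
      (Sim.move (l := [true, false]) (Knot.Move.firstDeathNeg 0) (by decide) (by decide)
        (by decide)).ctx (by decide) (by decide) (by decide)
    exact a1.trans (a2.trans (a3.trans (a4.trans a5)))
  have := val_isotopic (h0.isotopic (by decide))
  rw [val_circle] at this
  exact this

theorem neg_nil : val (top ++ [.neg 1] ++ bot) = 1 := by
  have h0 : Sim [] (top ++ [.neg 1] ++ ([] ++ bot)) Knot.circle := by
    have a1 : Sim [] ([.birth 0 false, .birth 2 true] ++ [.neg 1, .death 2] ++ [.death 0])
        ([.birth 0 false, .birth 2 true] ++ [.pos 2, .death 1] ++ [.death 0]) :=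
      (Sim.move (l := d4) (Knot.Move.slideDeath₁ 1) (by decide) (by decide)
        (by decide)).symm.ctx (by decide) (by decide) (by decide)
    have a2 : Sim [] ([.birth 0 false] ++ [.birth 2 true, .pos 2] ++ [.death 1, .death 0])
        ([.birth 0 false] ++ [.birth 2 (!true)] ++ [.death 1, .death 0]) :=
      (Sim.move (l := [false, true]) (Knot.Move.firstBirthPos 2 true) (by decide) (by decide)
        (by decide)).ctx (by decide) (by decide) (by decide)
    have a3 : Sim [] ([.birth 0 false] ++ [.birth 2 false, .death 1] ++ [.death 0])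
        ([.birth 0 false] ++ [] ++ [.death 0]) :=
      (Sim.move (l := [false, true]) (Knot.Move.zigzag₂ 1 false) (by decide) (by decide)
        (by decide)).ctx (by decide) (by decide) (by decide)
    have a4 : Sim [] ([] ++ [.birth 0 (!true)] ++ [.death 0]) ([] ++ [.birth 0 true, .neg 0] ++ [.death 0]) :=
      (Sim.move (l := []) (Knot.Move.firstBirthNeg 0 true) (by decide) (by decide)
        (by decide)).symm.ctx (by decide) (by decide) (by decide)
    have a5 : Sim [] ([.birth 0 true] ++ [.neg 0, .death 0] ++ []) ([.birth 0 true] ++ [.death 0] ++ []) :=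
      (Sim.move (l := [true, false]) (Knot.Move.firstDeathNeg 0) (by decide) (by decide)
        (by decide)).ctx (by decide) (by decide) (by decide)
    exact a1.trans (a2.trans (a3.trans (a4.trans a5)))
  have := val_isotopic (h0.isotopic (by decide))
  rw [val_circle] at this
  exact this

theorem V0_nil : mPow 1 * V0 [] = lPow (-1) - lPow 1 := by
  have key := val_parallel top 1 bot (by decide) (by decide)
  have h1 : val (top ++ [.pos 1] ++ bot) = 1 := V1_nil
  rw [h1, neg_nil] at key
  have h2 : V0 [] = val (top ++ bot) := rfl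
  rw [h2]
  linear_combination -key

/-! ### coefficients -/

theorem coeff_C_mul (a : LaurentPolynomial ℤ) (x : Rlm) (j : ℤ) :
    (C a * x).coeff j = a * x.coeff j := by
  have := AddMonoidAlgebra.coeff_single_mul_apply x a 0 j
  rw [LaurentPolynomial.single_eq_C_mul_T, T_zero, mul_one, neg_zero, zero_add] at this
  exact this

theorem coeff_T_mul (n : ℤ) (x : Rlm) (j : ℤ) : (T n * x).coeff j = x.coeff (j - n) := by
  have := AddMonoidAlgebra.coeff_single_mul_apply x (1 : LaurentPolynomial ℤ) n j
  rw [LaurentPolynomial.single_eq_C_mul_T, map_one, one_mul, one_mul] at this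
  rw [this]
  congr 1
  ring

theorem coeff_l_mul (a : ℤ) (x : Rlm) (j : ℤ) : (lPow a * x).coeff j = T a * x.coeff j :=
  coeff_C_mul _ _ _
theorem coeff_m_mul (a : ℤ) (x : Rlm) (j : ℤ) : (mPow a * x).coeff j = x.coeff (j - a) :=
  coeff_T_mul _ _ _

theorem coeff_cons {p : ℤ} {l : List ℤ} (hp : Odd p) (hl : ∀ q ∈ l, Odd q) :
    ∃ r : LaurentPolynomial ℤ, r * (T (-1) - T 1) = 1 - T (p - 1) ∧ ∀ j,
      (V0 (p :: l)).coeff j = T (p - 1) * (V1 l).coeff j + r * (V0 l).coeff (j - 1) ∧
      (V1 (p :: l)).coeff j = T (p - 1) * (T 2 * (V0 l).coeff j + T 1 * (V1 l).coeff (j - 1)) +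
        r * (V1 l).coeff (j - 1) := by
  obtain ⟨r, h1, h2, h3⟩ := V_cons hp hl
  refine ⟨r, h1, fun j => ⟨?_, ?_⟩⟩
  · rw [h2, AddMonoidAlgebra.coeff_add, Finsupp.add_apply, coeff_l_mul, mul_assoc, coeff_C_mul,
      coeff_m_mul]
  · rw [h3, AddMonoidAlgebra.coeff_add, Finsupp.add_apply, coeff_l_mul, mul_assoc (C r),
      coeff_C_mul, coeff_m_mul, AddMonoidAlgebra.coeff_add, Finsupp.add_apply, coeff_l_mul,
      mul_assoc (lPow 1), coeff_l_mul, coeff_m_mul]

/-- The lowest coefficient of the HOMFLY polynomial of a pretzel knot: `l ^ S (∑ l ^ (-p_i) -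
N (l + l ^ (-1)))`, where `2 N + 1` is the number of the columns. -/
def low (l : List ℤ) : LaurentPolynomial ℤ :=
  T l.sum * ((l.map fun p => T (-p)).sum - ((l.length / 2 : ℕ) : LaurentPolynomial ℤ) * (T 1 + T (-1)))

theorem coeffs (l : List ℤ) (hl : ∀ q ∈ l, Odd q) :
    (∀ j < -1, (V0 l).coeff j = 0 ∧ (V1 l).coeff j = 0) ∧
    (Even l.length → (V0 l).coeff (-1) = T l.sum * (T (-1) - T 1) ∧ (V1 l).coeff (-1) = 0 ∧
      (V1 l).coeff 0 = T 1 * low l + T l.sum) ∧
    (Odd l.length → (V0 l).coeff (-1) = 0 ∧ (V0 l).coeff 0 = low l ∧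
      (V1 l).coeff (-1) = T (l.sum + 1) * (T (-1) - T 1)) := by
  induction l with
  | nil =>
    have h0 : ∀ j : ℤ, (V0 []).coeff (j - 1) = if j = 0 then (T (-1) - T 1 : LaurentPolynomial ℤ) else 0 := by
      intro j
      rw [← coeff_m_mul, V0_nil]
      have : (lPow (-1) - lPow 1 : Rlm) = C (T (-1) - T 1) := by rw [map_sub]; rfl
      rw [this, LaurentPolynomial.C_apply]
    have h1 : ∀ j : ℤ, (V1 []).coeff j = if j = 0 then (1 : LaurentPolynomial ℤ) else 0 := by
      intro j
      rw [V1_nil]
      have : (1 : Rlm) = C 1 := by rw [map_one]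
      rw [this, LaurentPolynomial.C_apply]
    refine ⟨fun j hj => ⟨?_, ?_⟩, fun _ => ⟨?_, ?_, ?_⟩, fun h => ?_⟩
    · have := h0 (j + 1)
      rw [if_neg (by omega), add_sub_cancel_right] at this
      exact this
    · rw [h1, if_neg (by omega)]
    · have := h0 0
      rw [if_pos rfl] at this
      rw [List.sum_nil, T_zero, one_mul]
      exact this
    · rw [h1, if_neg (by omega)]
    · rw [h1, if_pos rfl]
      simp [low]
    · exact absurd h (by decide)
  | cons p l ih =>
    obtain ⟨i1, i2, i3⟩ := ih fun q hq => hl q (List.mem_cons_of_mem _ hq)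
    obtain ⟨r, hr, hc⟩ := coeff_cons (hl p List.mem_cons_self)
      (fun q hq => hl q (List.mem_cons_of_mem _ hq))
    have z0 := (i1 (-1 - 1) (by omega)).1
    have z1 := (i1 (-1 - 1) (by omega)).2
    refine ⟨fun j hj => ⟨?_, ?_⟩, fun h => ?_, fun h => ?_⟩
    · rw [(hc j).1, (i1 j hj).2, (i1 (j - 1) (by omega)).1]; ring
    · rw [(hc j).2, (i1 j hj).1, (i1 (j - 1) (by omega)).2]; ring
    · rw [List.length_cons] at h
      have ho : Odd l.length := by
        rcases Nat.even_or_odd l.length with h' | h'
        · exact absurd h (by rw [Nat.not_even_iff_odd]; exact h'.add_one)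
        · exact h'
      obtain ⟨j1, j2, j3⟩ := i3 ho
      obtain ⟨N, hN⟩ := ho
      have e1 : (T (p - 1) * T (l.sum + 1) : LaurentPolynomial ℤ) = T (p + l.sum) := by
        rw [← T_add]; congr 1; ring
      refine ⟨?_, ?_, ?_⟩
      · rw [(hc (-1)).1, j3, z0, List.sum_cons]
        linear_combination (T (-1) - T 1) * e1
      · rw [(hc (-1)).2, j1, z1]; ring
      · rw [(hc 0).2, j2, zero_sub, j3]
        unfold low
        rw [List.length_cons, List.map_cons, List.sum_cons, List.sum_cons, hN,
          show (2 * N + 1 + 1) / 2 = N + 1 by omega, show (2 * N + 1) / 2 = N by omega]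
        set A := (l.map fun p => (T (-p) : LaurentPolynomial ℤ)).sum
        set S := l.sum
        push_cast
        have e2 : (T (p - 1) * (T 2 * T S) : LaurentPolynomial ℤ) = T 1 * T (p + S) := by
          rw [← T_add, ← T_add, ← T_add]; congr 1; ring
        have e3 : (T (p + S) * T (-p) : LaurentPolynomial ℤ) = T S := by
          rw [← T_add]; congr 1; ring
        have e4 : (T 1 * T S : LaurentPolynomial ℤ) = T (S + 1) := by
          rw [← T_add]; congr 1; ring
        have e5 : (T 1 * T (-1) : LaurentPolynomial ℤ) = 1 := by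
          rw [← T_add]; norm_num
        linear_combination (A - (N : LaurentPolynomial ℤ) * (T 1 + T (-1))) * e2 +
          T 1 * (T (-1) - T 1) * e1 + T (S + 1) * hr - T 1 * e3 - e4 - e1 + 2 * T (p + S) * e5
    · rw [List.length_cons] at h
      have he : Even l.length := by
        rcases Nat.even_or_odd l.length with h' | h'
        · exact h'
        · exact absurd h (by rw [Nat.not_odd_iff_even]; exact h'.add_one)
      obtain ⟨j1, j2, j3⟩ := i2 he
      obtain ⟨N, hN⟩ := he
      refine ⟨?_, ?_, ?_⟩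
      · rw [(hc (-1)).1, j2, z0]; ring
      · rw [(hc 0).1, j3, zero_sub, j1]
        unfold low
        rw [List.length_cons, List.map_cons, List.sum_cons, List.sum_cons, hN,
          show (N + N + 1) / 2 = N by omega, show (N + N) / 2 = N by omega]
        set A := (l.map fun p => (T (-p) : LaurentPolynomial ℤ)).sum
        set S := l.sum
        have e2 : (T (p - 1) * (T 1 * T S) : LaurentPolynomial ℤ) = T (p + S) := by
          rw [← T_add, ← T_add]; congr 1; ring
        have e3 : (T (p + S) * T (-p) : LaurentPolynomial ℤ) = T S := by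
          rw [← T_add]; congr 1; ring
        linear_combination (A - (N : LaurentPolynomial ℤ) * (T 1 + T (-1))) * e2 + T S * hr - e3
      · rw [(hc (-1)).2, j1, z1, List.sum_cons]
        have e2 : (T (p - 1) * (T 2 * T l.sum) : LaurentPolynomial ℤ) = T (p + l.sum + 1) := by
          rw [← T_add, ← T_add]; congr 1; ring
        linear_combination (T (-1) - T 1) * e2

end

end Pool.Agent.K7.H38.PZ
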