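import Pool.Agent.K7.H38.PZ.Defs
import Pool.Agent.K7.H38.TB.Sim
import Pool.Agent.K7.H38.TB.Eval

/-!
# The columns of a pretzel diagram
-/

set_option autoImplicit false

namespace Pool.Agent.K7.H38.PZ

open Pool.Agent.H835R2 Pool.Agent.H835R2.Knot
open Pool.Agent.Helper454
open Pool.Agent.Helper454.Wh (Rlm lPow mPow)
open Pool.Agent.Y466.FT
open Pool.Agent.K7.H38.TB

/-- The directions of the four strands. -/
abbrev d4 : List Bool := [false, true, true, false]

/-- A column with one crossing is a crossing of the strands `1` and `2`. -/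
theorem sim_block_one : Sim d4 (block 1) [.pos 1] := by
  have h1 : Sim d4 ([.birth 3 false] ++ [.neg 2, .death 1]) ([.birth 3 false] ++ [.pos 1, .death 2]) :=
    (Sim.move (l := [false, true, true, false, true, false]) (Knot.Move.slideDeath₂ 1)
      (by decide) (by decide) (by decide)).left (by decide) (by decide)
  have h2 : Sim d4 ([.birth 3 false, .pos 1] ++ [.death 2]) ([.pos 1, .birth 3 false] ++ [.death 2]) :=
    (Sim.move (l := d4) (Knot.Move.exchange (.pos 1) (.birth 3 false) (by decide))
      (by decide) (by decide) (by decide)).symm.right (by decide)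
  have h3 : Sim d4 ([.pos 1] ++ [.birth 3 false, .death 2]) ([.pos 1] ++ []) :=
    (Sim.move (l := d4) (Knot.Move.zigzag₂ 2 false)
      (by decide) (by decide) (by decide)).left (by decide) (by decide)
  exact h1.trans (h2.trans h3)

/-- A column with one crossing of the other kind. -/
theorem sim_block_neg : Sim d4 (block (-1)) [.neg 1] := by
  have h1 : Sim d4 ([.birth 3 false] ++ [.pos 2, .death 1]) ([.birth 3 false] ++ [.neg 1, .death 2]) :=
    (Sim.move (l := [false, true, true, false, true, false]) (Knot.Move.slideDeath₁ 1)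
      (by decide) (by decide) (by decide)).left (by decide) (by decide)
  have h2 : Sim d4 ([.birth 3 false, .neg 1] ++ [.death 2]) ([.neg 1, .birth 3 false] ++ [.death 2]) :=
    (Sim.move (l := d4) (Knot.Move.exchange (.neg 1) (.birth 3 false) (by decide))
      (by decide) (by decide) (by decide)).symm.right (by decide)
  have h3 : Sim d4 ([.neg 1] ++ [.birth 3 false, .death 2]) ([.neg 1] ++ []) :=
    (Sim.move (l := d4) (Knot.Move.zigzag₂ 2 false)
      (by decide) (by decide) (by decide)).left (by decide) (by decide)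
  exact h1.trans (h2.trans h3)

/-- A column which is cut. -/
theorem sim_cut : Sim d4 [.birth 3 false, .death 2, .birth 2 false, .death 1] [] := by
  have h1 : Sim d4 ([.birth 3 false, .death 2] ++ [.birth 2 false, .death 1])
      ([] ++ [.birth 2 false, .death 1]) :=
    (Sim.move (l := d4) (Knot.Move.zigzag₂ 2 false)
      (by decide) (by decide) (by decide)).right (by decide)
  have h2 : Sim d4 [.birth 2 false, .death 1] [] :=
    Sim.move (l := d4) (Knot.Move.zigzag₂ 1 false) (by decide) (by decide) (by decide)
  exact h1.trans h2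

theorem sim_absorb (b : Bool) (p : Knot.Piece) (hp : p = .pos 2 ∨ p = .neg 2) :
    Sim d4 [.birth 2 b, p] [.birth 2 (!b)] := by
  rcases hp with rfl | rfl
  · refine Sim.move (Knot.Move.firstBirthPos 2 b) ?_ ?_ ?_ <;> cases b <;> decide
  · refine Sim.move (Knot.Move.firstBirthNeg 2 b) ?_ ?_ ?_ <;> cases b <;> decide


theorem run_birth_rep (b : Bool) (p : Knot.Piece) (hp : p = .pos 2 ∨ p = .neg 2) (k : ℕ) :
    Knot.Fits (.birth 2 b :: List.replicate k p) (fr d4) := by
  refine ⟨by show 2 ≤ 4; omega, ?_⟩
  exact fits_replicate p 2 hp k _ (by show 2 + 2 ≤ 4 + 2; omega)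

theorem sim_absorb_even (b : Bool) (p : Knot.Piece) (hp : p = .pos 2 ∨ p = .neg 2) (k : ℕ) :
    Sim d4 (.birth 2 b :: List.replicate (2 * k) p) [.birth 2 b] := by
  induction k with
  | zero => exact Sim.refl (run_birth_rep b p hp 0)
  | succ k ih =>
    have e : List.replicate (2 * (k + 1)) p = List.replicate (2 * k) p ++ [p, p] := by
      rw [show 2 * (k + 1) = 2 * k + 2 by ring, List.replicate_add]; rfl
    have h1 : Sim d4 ((.birth 2 b :: List.replicate (2 * k) p) ++ [p, p]) ([.birth 2 b] ++ [p, p]) := by
      refine ih.right ?_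
      have := (run_birth_rep b p hp (2 * k + 2))
      rw [List.replicate_add] at this
      have e2 : (.birth 2 b :: (List.replicate (2 * k) p ++ List.replicate 2 p)) =
        (.birth 2 b :: List.replicate (2 * k) p) ++ [p, p] := rfl
      rw [e2, fits_append] at this
      exact this.2
    have h2 : Sim d4 ([.birth 2 b, p] ++ [p]) ([.birth 2 (!b)] ++ [p]) := by
      refine (sim_absorb b p hp).right ?_
      rcases hp with rfl | rfl <;> cases b <;> decide
    have h3 := sim_absorb (!b) p hp
    rw [Bool.not_not] at h3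
    rw [e]
    exact h1.trans (h2.trans h3)

/-- A column which is cut above its crossings. -/
theorem sim_cut_odd (p : Knot.Piece) (hp : p = .pos 2 ∨ p = .neg 2) (k : ℕ) :
    Sim d4 ([.birth 3 false, .death 2, .birth 2 true] ++ (List.replicate (2 * k + 1) p ++ [.death 1]))
      [] := by
  have h1 : Sim d4 (.birth 2 true :: List.replicate (2 * k + 1) p) [.birth 2 false] := by
    have e : (Knot.Piece.birth 2 true) :: List.replicate (2 * k + 1) p =
        (.birth 2 true :: List.replicate (2 * k) p) ++ [p] := by
      rw [List.replicate_add]; rfl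
    rw [e]
    refine Sim.trans ((sim_absorb_even true p hp k).right ?_) (sim_absorb true p hp)
    have := (run_birth_rep true p hp (2 * k + 1))
    rw [e, fits_append] at this
    exact this.2
  have h2 : Sim d4 ([.birth 3 false, .death 2] ++ (.birth 2 true :: List.replicate (2 * k + 1) p) ++
      [.death 1]) ([.birth 3 false, .death 2] ++ [.birth 2 false] ++ [.death 1]) := by
    refine Sim.ctx h1 (by decide) (by decide) ?_
    refine (h1.e.symm.word [.death 1] (by decide)).1
  have e : [.birth 3 false, .death 2, .birth 2 true] ++ (List.replicate (2 * k + 1) p ++ [.death 1]) =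
      [.birth 3 false, .death 2] ++ (.birth 2 true :: List.replicate (2 * k + 1) p) ++ [.death 1] := by
    simp
  rw [e]
  exact h2.trans sim_cut

/-- The directions above the crossings. -/
abbrev d6 : List Bool := [false, true, true, false, true, false]

/-- An odd number of crossings. -/
theorem eqv_rep (p : Knot.Piece) (hp : p = .pos 2 ∨ p = .neg 2) (k : ℕ) (F : Front) :
    Knot.run (List.replicate (2 * k + 1) p) F = p.act F := by
  rw [List.replicate_add, run_append, run_replicate p 2 hp]
  rfl

theorem block_ok (p : Knot.Piece) (hp : p = .pos 2 ∨ p = .neg 2) (k : ℕ) :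
    Knot.Fits (.birth 3 false :: (List.replicate (2 * k + 1) p ++ [.death 1])) (fr d4) ∧
      Eqv (Knot.run (.birth 3 false :: (List.replicate (2 * k + 1) p ++ [.death 1])) (fr d4))
        (fr d4) := by
  constructor
  · refine ⟨by show 3 ≤ 4; omega, ?_⟩
    rw [fits_append]
    refine ⟨fits_replicate p 2 hp _ _ (by show 2 + 2 ≤ 4 + 2; omega), ?_⟩
    rw [eqv_rep p hp]
    rcases hp with rfl | rfl <;> decide
  · show Eqv (Knot.run (List.replicate (2 * k + 1) p ++ [.death 1]) _) _
    rw [run_append, eqv_rep p hp]
    rcases hp with rfl | rfl <;> decide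

theorem odd_cases {p : ℤ} (hp : Odd p) : ∃ k : ℕ,
    (p = 2 * k + 1 ∧ column 2 p = List.replicate (2 * k + 1) (.neg 2)) ∨
    (p = -(2 * k + 1) ∧ column 2 p = List.replicate (2 * k + 1) (.pos 2)) := by
  obtain ⟨a, ha⟩ := hp
  rcases le_or_gt 0 a with h | h
  · obtain ⟨k, rfl⟩ := Int.eq_ofNat_of_zero_le h
    refine ⟨k, Or.inl ⟨ha, ?_⟩⟩
    unfold column
    rw [if_pos (by omega)]
    congr 1
    omega
  · obtain ⟨k, hk⟩ := Int.eq_ofNat_of_zero_le (show 0 ≤ -a - 1 by omega)
    refine ⟨k, Or.inr ⟨by omega, ?_⟩⟩
    unfold column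
    rw [if_neg (by omega)]
    congr 1
    omega

theorem block_fits {p : ℤ} (hp : Odd p) : Knot.Fits (block p) (fr d4) ∧
    Eqv (Knot.run (block p) (fr d4)) (fr d4) := by
  obtain ⟨k, ⟨-, h⟩ | ⟨-, h⟩⟩ := odd_cases hp
  · unfold block
    rw [h]
    exact block_ok _ (Or.inr rfl) k
  · unfold block
    rw [h]
    exact block_ok _ (Or.inl rfl) k

/-- Inserting a part which does not change the directions. -/
theorem closed_insert {x b y : Knot.Word} (hx : Eqv (Knot.run x Front.empty) (fr d4))
    (hb : Knot.Fits b (fr d4)) (he : Eqv (Knot.run b (fr d4)) (fr d4)) (h : Closed (x ++ y)) :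
    Closed (x ++ b ++ y) := by
  have h' : Closed (x ++ [] ++ y) := by simpa using h
  have h1 := hx.symm.word b hb
  refine closed_replace h' h1.1 ?_
  exact (hx.trans he.symm).trans h1.2

end Pool.Agent.K7.H38.PZ
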